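import Pool.Agent.Lib.MP_545af4_pr.Defs
import Pool.Agent.Lib.MP_545af4_pr.Main

open Pool.Agent.MP545af4

/-- **Negative answer to Q1.** There is a Liouville number `α` such that for every symmetric
environment `p` of class `C²` and almost every `x`, the limit superior of
`ln Var_x(Z_T) / ln T` is at most `19/10`. -/
theorem Pool.Agent.Results.MP_545af4_pr.SubquadraticVariance.result :
    ∃ α : ℝ, 0 < α ∧ α < 1 ∧ Irrational α ∧ ¬ IsDiophantine α ∧
      ∀ p : ℝ → ℝ, IsSymEnv p → ∀ᵐ x : ℝ, growth p α x ≤ ((19 / 10 : ℝ) : EReal) :=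
  ⟨alpha, alpha_pos, alpha_lt_one, alpha_liouville.irrational, not_diophantine,
    fun _ hp => growth_le hp⟩
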